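import Mathlib

namespace Pool.Agent.H.MP_6065fc_lc

open FirstOrder FirstOrder.Language

section
variable (L : FirstOrder.Language.{0, 0}) (M : Type) [L.Structure M]

/-- sets of assignments defined by primitive positive formulas with free variables in α -/
inductive PP : (α : Type) → Set (α → M) → Prop
  | rel {α n} (r : L.Relations n) (f : Fin n → α) : PP α {v | Structure.RelMap r (v ∘ f)}
  | eq {α} (a b : α) : PP α {v | v a = v b}
  | top {α} : PP α Set.univ
  | and {α S T} : PP α S → PP α T → PP α (S ∩ T)
  | ex {α S} : PP (Option α) S → PP α {v | ∃ x, (fun o : Option α => o.elim x v) ∈ S}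

variable (L' : FirstOrder.Language.{0, 0})

/-- the L'-structure on M is a first-order reduct of the L-structure on M -/
def Reduct [L'.Structure M] : Prop :=
  ∀ n (r : L'.Relations n), (∅ : Set M).Definable L {v : Fin n → M | Structure.RelMap r v}

def MCCore : Prop :=
  ∀ (f : M →[L] M) (s : Finset M), ∃ g : M ≃[L] M, ∀ x ∈ s, g x = f x

/-- M pp-constructs D -/
def PPC (D : Type) [L'.Structure D] : Prop :=
  ∃ (d : ℕ) (_ : L'.Structure (Fin d → M)), 0 < d ∧
    (∀ n (r : L'.Relations n),
      PP L M (Fin n × Fin d) {v | Structure.RelMap r (fun i j => v (i, j))}) ∧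
    Nonempty (D →[L'] (Fin d → M)) ∧ Nonempty ((Fin d → M) →[L'] D)

def Stubborn : Prop :=
  ∀ (L1 : FirstOrder.Language.{0, 0}) [L1.IsRelational] [L1.Structure M],
    Reduct L M L1 → Reduct L1 M L → MCCore L1 M →
    ∀ (L2 : FirstOrder.Language.{0, 0}) [L2.IsRelational] (D : Type) [L2.Structure D],
      Finite D → Nonempty D → PPC L1 M L2 D

end

end Pool.Agent.H.MP_6065fc_lc
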