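import Mathlib
import Pool.Agent.H.MP_6065fc_lc.Defs

namespace Pool.Agent.H.MP_6065fc_lc

open FirstOrder FirstOrder.Language

section
variable {L : FirstOrder.Language.{0, 0}} {M : Type} [L.Structure M]

theorem PP.congr {α : Type} {S T : Set (α → M)} (h : PP L M α S) (e : ∀ v, v ∈ S ↔ v ∈ T) :
    PP L M α T := (Set.ext e : S = T) ▸ h

theorem PP.ren {α : Type} {S : Set (α → M)} (h : PP L M α S) {β : Type} (g : α → β) :
    PP L M β {v | v ∘ g ∈ S} := by
  induction h generalizing β with
  | rel r f => exact .rel r (g ∘ f)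
  | eq a b => exact .eq _ _
  | top => exact .top
  | and _ _ i j => exact .and (i g) (j g)
  | ex _ i =>
    refine (PP.ex (i (Option.map g))).congr fun v => exists_congr fun x => ?_
    simp only [Set.mem_ofPred_eq]
    rw [iff_eq_eq]
    congr 1
    funext o
    cases o <;> rfl

theorem PP.all {α J : Type} (s : Finset J) {S : J → Set (α → M)} (h : ∀ j ∈ s, PP L M α (S j)) :
    PP L M α {v | ∀ j ∈ s, v ∈ S j} := by
  classical
  induction s using Finset.induction_on with
  | empty => exact PP.top.congr (by simp)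
  | insert a s _ i =>
    exact ((h a (by simp)).and (i fun j hj => h j (by simp [hj]))).congr (by simp)

theorem PP.all' {α J : Type} [Finite J] {S : J → Set (α → M)} (h : ∀ j, PP L M α (S j)) :
    PP L M α {v | ∀ j, v ∈ S j} := by
  have := Fintype.ofFinite J
  exact (PP.all Finset.univ fun j _ => h j).congr (by simp)

theorem PP.exs (β : Type) [Finite β] : ∀ {α : Type} {S : Set (α ⊕ β → M)},
    PP L M _ S → PP L M α {v | ∃ w, Sum.elim v w ∈ S} := by
  induction β using Finite.induction_empty_option with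
  | @of_equiv β γ e i =>
    intro α S h
    refine (i (h.ren (Sum.map id e.symm))).congr fun v => ?_
    simp only [Set.mem_ofPred_eq, Sum.elim_comp_map]
    exact ⟨fun ⟨w, a⟩ => ⟨_, a⟩, fun ⟨w, a⟩ => ⟨w ∘ e, by simpa [Function.comp_assoc] using a⟩⟩
  | h_empty =>
    intro α S h
    refine (h.ren (Sum.elim id PEmpty.elim)).congr fun v => ?_
    have : ∀ w : PEmpty.{1} → M, Sum.elim v w = v ∘ Sum.elim id PEmpty.elim := fun w => by
      funext x; rcases x with x | ⟨⟨⟩⟩; rfl
    simp [this]
  | @h_option β _ i =>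
    intro α S h
    refine (PP.ex (i (h.ren (Sum.elim (fun a => .inl (some a))
      (fun o => o.elim (.inl none) .inr) : _ → Option α ⊕ β)))).congr fun v => ?_
    simp only [Set.mem_ofPred_eq]
    constructor
    · rintro ⟨x, w, a⟩
      refine ⟨fun o => o.elim x w, ?_⟩
      convert a using 1
      funext z
      rcases z with z | _ | z <;> rfl
    · rintro ⟨w, a⟩
      refine ⟨w none, fun b => w (some b), ?_⟩
      convert a using 1
      funext z
      rcases z with z | _ | z <;> rfl

end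

def O (x y : ℕ) : Prop := x < 3 ∧ y < 3 ∧ x ≠ y

def Fr (t f n : ℕ) : Prop := O t f ∧ O f n ∧ O t n

theorem or_g {t f n x y o : ℕ} (h : Fr t f n) (hx : O x n) (hy : O y n) (ho : O o n) :
    (∃ p q, O p x ∧ O q y ∧ O p q ∧ O o p ∧ O o q) ↔ (x = y → o = x) := by
  unfold Fr O at *
  constructor
  · rintro ⟨p, q, a⟩
    omega
  · intro a
    by_cases c : x = o
    · exact ⟨t + f - o, n, by omega⟩
    · exact ⟨n, t + f - o, by omega⟩

section
variable {L : FirstOrder.Language.{0, 0}} [L.Structure ℕ]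
  (hO : ∀ (α : Type) (a b : α), PP L ℕ α {v | O (v a) (v b)})
include hO

theorem pp_or {α : Type} (x y o : α) :
    PP L ℕ α {v | ∃ p q, O p (v x) ∧ O q (v y) ∧ O p q ∧ O (v o) p ∧ O (v o) q} :=
  PP.ex (PP.ex ((hO _ (some none) (some (some x))).and ((hO _ none (some (some y))).and
    ((hO _ (some none) none).and ((hO _ (some (some o)) (some none)).and
    (hO _ (some (some o)) none))))))

theorem pp_cl {α β : Type} (t f n : α) (g : β → α) (b : β → Bool) (l : List β) (o : α) :
    ∃ S, PP L ℕ α S ∧ ∀ v, Fr (v t) (v f) (v n) → (∀ a, O (v (g a)) (v n)) → O (v o) (v n) →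
      (v ∈ S ↔ ((∀ a ∈ l, v (g a) = cond (b a) (v t) (v f)) → v o = v f)) := by
  induction l generalizing α with
  | nil => exact ⟨_, .eq o f, fun v _ _ _ => by simp⟩
  | cons a l i =>
    obtain ⟨S, hS, h⟩ := i (α := Option α) (some t) (some f) (some n) (some ∘ g) none
    have hl : PP L ℕ (Option (Option α)) {v | cond (b a) (O (v none) (v (some (some (g a)))))
        (v none = v (some (some (g a))))} := by
      cases b a
      · exact .eq _ _
      · exact hO _ _ _
    refine ⟨_, PP.ex (hS.and ((hO _ none (some n)).and (PP.ex (hl.and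
      ((hO _ none (some (some n))).and (pp_or hO (some none) none (some (some o)))))))),
      fun v h1 h2 h3 => ?_⟩
    simp only [Set.mem_ofPred_eq, Set.mem_inter_iff, Option.elim, List.forall_mem_cons]
    have h4 := h2 a
    generalize hP : (∀ a ∈ l, v (g a) = cond (b a) (v t) (v f)) = P
    have k : ∀ x, O x (v n) → ((fun o : Option α => o.elim x v) ∈ S ↔ (P → x = v f)) :=
      fun x hx => hP ▸ h _ h1 h2 hx
    constructor
    · rintro ⟨x, a1, a2, y, a3, a4, a5⟩ ⟨a6, a7⟩
      have a1 := (k x a2).1 a1 a7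
      have a5 := (or_g h1 a2 a4 h3).1 a5
      unfold Fr O at *
      cases hb : b a <;> simp only [hb, cond] at a3 a6 <;> omega
    · intro c
      obtain ⟨y, y1, y2, y3⟩ : ∃ y, O y (v n) ∧ cond (b a) (O y (v (g a))) (y = v (g a)) ∧
          (y = v f → v (g a) = cond (b a) (v t) (v f)) := by
        unfold Fr O at *
        cases b a
        · exact ⟨_, h4, rfl, id⟩
        · exact ⟨v t + v f - v (g a), by simp only [cond]; omega⟩
      by_cases d : P ∨ y = v t
      · refine ⟨v f, (k _ h1.2.1).2 fun _ => rfl, h1.2.1, y, y2, y1,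
          (or_g h1 h1.2.1 y1 h3).2 fun e => c ⟨y3 e.symm, d.resolve_right fun e' => ?_⟩⟩
        exact h1.1.2.2 (e'.symm.trans e.symm)
      · push Not at d
        exact ⟨v t, (k _ h1.2.2).2 fun x => (d.1 x).elim, h1.2.2, y, y2, y1,
          (or_g h1 h1.2.2 y1 h3).2 fun e => (d.2 e.symm).elim⟩

theorem pp_bool {α β : Type} [Finite β] (t f n : α) (g : β → α) (ρ : Set (β → Bool)) :
    PP L ℕ α {v | Fr (v t) (v f) (v n) ∧ ∃ b ∈ ρ, ∀ a, v (g a) = cond (b a) (v t) (v f)} := by
  obtain ⟨l, -, hl⟩ := Finite.exists_univ_list β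
  choose S h1 h2 using fun b : {b // b ∉ ρ} => pp_cl hO t f n g b.1 l t
  refine ((((hO _ t f).and ((hO _ f n).and (hO _ t n))).and (PP.all' fun a => hO _ (g a) n)).and
    (PP.all' h1)).congr fun v => ?_
  simp only [Set.mem_inter_iff, Set.mem_ofPred_eq]
  constructor
  · rintro ⟨⟨a1, a2⟩, a3⟩
    have e : ∀ a, v (g a) = cond (decide (v (g a) = v t)) (v t) (v f) := fun a => by
      have := a2 a
      by_cases c : v (g a) = v t
      · simp [c]
      · simp only [c, decide_false, cond]
        unfold O at *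
        omega
    refine ⟨a1, fun a => decide (v (g a) = v t), ?_, e⟩
    by_contra c
    exact a1.1.2.2 ((h2 ⟨_, c⟩ v a1 a2 a1.2.2).1 (a3 _) fun a _ => e a)
  · rintro ⟨a1, b, hb, a2⟩
    have e : ∀ a, O (v (g a)) (v n) := fun a => by
      rw [a2]
      cases b a
      exacts [a1.2.1, a1.2.2]
    refine ⟨⟨a1, e⟩, fun b' => (h2 b' v a1 e a1.2.2).2 fun c => (b'.2 ?_).elim⟩
    convert hb
    funext a
    have := (a2 a).symm.trans (c a (hl a))
    have := a1.1.2.2
    cases x : b a <;> cases y : b'.1 a <;> simp_all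

theorem univ (L2 : FirstOrder.Language.{0, 0}) [L2.IsRelational] (D : Type) [L2.Structure D]
    [Finite D] [Nonempty D] : PPC L ℕ L2 D := by
  classical
  obtain ⟨d, ⟨e⟩⟩ := Finite.exists_equiv_fin (Fin 3 ⊕ D)
  let st : L2.Structure (Fin d → ℕ) :=
    { funMap := fun f => isEmptyElim f
      RelMap := fun {n} r w => ∃ u : Fin 3 → ℕ, (∀ p : Fin n × Fin 3, w p.1 (e (.inl p.2)) = u p.2) ∧
        Fr (u 0) (u 1) (u 2) ∧ ∃ b ∈ {b : Fin n × D → Bool | ∃ x : Fin n → D,
          Structure.RelMap r x ∧ ∀ p, b p = decide (x p.1 = p.2)},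
          ∀ p : Fin n × D, w p.1 (e (.inr p.2)) = cond (b p) (u 0) (u 1) }
  refine ⟨d, st, Fin.pos (e (.inl 0)), fun n r => ?_,
    ⟨⟨fun x j => Sum.elim Fin.val (fun y => cond (decide (x = y)) 0 1) (e.symm j),
      fun f => isEmptyElim f, fun r x h => ?_⟩⟩,
    ⟨⟨fun w => Classical.epsilon fun x => w (e (.inr x)) = w (e (.inl 0)),
      fun f => isEmptyElim f, fun r w h => ?_⟩⟩⟩
  · exact PP.exs (Fin 3) ((PP.all' fun p : Fin n × Fin 3 =>
      PP.eq (.inl (p.1, e (.inl p.2))) (.inr p.2)).and (pp_bool hO (.inr 0) (.inr 1) (.inr 2)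
        (fun p : Fin n × D => .inl (p.1, e (.inr p.2))) _))
  · exact ⟨Fin.val, fun p => by simp, by unfold Fr O; decide, _, ⟨x, h, fun _ => rfl⟩,
      fun p => by simp⟩
  · obtain ⟨u, h1, h2, b, ⟨x, h3, h4⟩, h5⟩ := h
    convert h3
    funext i
    have k : ∀ y, w i (e (.inr y)) = w i (e (.inl 0)) ↔ x i = y := fun y => by
      rw [h5 (i, y), h1 (i, 0), h4]
      have := h2.1.2.2
      by_cases c : x i = y <;> simp [c, this.symm]
    exact ((k _).1 (Classical.epsilon_spec (p := fun x => w i (e (.inr x)) = w i (e (.inl 0)))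
      ⟨_, (k _).2 rfl⟩)).symm

end

end Pool.Agent.H.MP_6065fc_lc
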