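import Mathlib
import Pool.Agent.H.MP_6065fc_lc.A

namespace Pool.Agent.H.MP_6065fc_lc

open FirstOrder FirstOrder.Language Filter

def L0 : FirstOrder.Language.{0, 0} := ⟨fun _ => Empty, fun n => {_b : Bool // n = 1}⟩

instance : L0.IsRelational := fun _ => inferInstanceAs (IsEmpty Empty)

instance : L0.Structure ℕ where
  funMap f := Empty.elim f
  RelMap r v := ∀ i, decide (v i < 3) = r.1

instance : L0.Structure Bool where
  funMap f := Empty.elim f
  RelMap r v := ∀ i, v i = r.1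

theorem fin0 : Finite L0.Symbols := by
  refine Finite.of_injective (fun x : L0.Symbols => match x with
    | .inl ⟨_, f⟩ => Empty.elim f
    | .inr ⟨_, r⟩ => r.1) ?_
  rintro (⟨_, ⟨⟩⟩ | ⟨_, ⟨b, rfl⟩⟩) (⟨_, ⟨⟩⟩ | ⟨_, ⟨b', rfl⟩⟩) h
  obtain rfl : b = b' := h
  rfl

theorem perm {α : Type} [Finite α] (f g : α → ℕ) (h : ∀ a b, f a = f b ↔ g a = g b)
    (h' : ∀ a, f a < 3 ↔ g a < 3) :
    ∃ σ : Equiv.Perm ℕ, (∀ x, σ x < 3 ↔ x < 3) ∧ ∀ a, σ (f a) = g a := by
  classical
  have : ∀ s : Finset α, ∃ σ : Equiv.Perm ℕ, (∀ x, σ x < 3 ↔ x < 3) ∧ ∀ a ∈ s, σ (f a) = g a := by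
    intro s
    induction s using Finset.induction_on with
    | empty => exact ⟨1, fun _ => Iff.rfl, by simp⟩
    | insert a s _ i =>
      obtain ⟨σ, h1, h2⟩ := i
      refine ⟨σ.trans (Equiv.swap (σ (f a)) (g a)), fun x => ?_, ?_⟩
      · have := h1 x
        have := h1 (f a)
        have := h' a
        simp only [Equiv.trans_apply, Equiv.swap_apply_def]
        split_ifs <;> omega
      · simp only [Finset.forall_mem_insert, Equiv.trans_apply, Equiv.swap_apply_left, true_and]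
        intro b hb
        by_cases c : f b = f a
        · rw [c, Equiv.swap_apply_left, (h _ _).1 c]
        · rw [Equiv.swap_apply_of_ne_of_ne (σ.injective.ne c), h2 b hb]
          rw [h2 b hb]
          exact fun d => c ((h _ _).2 d)
  have _ := Fintype.ofFinite α
  exact (this Finset.univ).imp fun σ h => ⟨h.1, fun a => h.2 a (Finset.mem_univ a)⟩

def aut (σ : Equiv.Perm ℕ) (h : ∀ x, σ x < 3 ↔ x < 3) : ℕ ≃[L0] ℕ where
  toEquiv := σ
  map_fun' f := Empty.elim f
  map_rel' r v := forall_congr' fun i => by simp [h]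

theorem uh : L0.IsUltrahomogeneous ℕ := by
  intro S hS f
  have : Finite S := hS.finite
  obtain ⟨σ, h1, h2⟩ := perm (fun x : S => (x : ℕ)) f
    (fun a b => by rw [f.injective.eq_iff, Subtype.val_inj]) (fun a => by
      have := f.map_rel (n := 1) ⟨true, rfl⟩ (fun _ => a)
      simpa [Structure.RelMap] using this.symm)
  exact ⟨aut σ h1, Embedding.ext fun x => (h2 x).symm⟩

theorem inv {L : FirstOrder.Language.{0, 0}} {M : Type} [L.Structure M] {α : Type}
    {S : Set (α → M)} (h : (∅ : Set M).Definable L S) (g : M ≃[L] M) (v : α → M) :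
    g ∘ v ∈ S ↔ v ∈ S := by
  obtain ⟨φ, rfl⟩ := Set.empty_definable_iff.1 h
  exact StrongHomClass.realize_formula g φ

theorem stub : Stubborn L0 ℕ := by
  classical
  intro L _ _ r1 r2 mc L2 _ D _ _ _
  refine univ (fun α a b => ?_) L2 D
  suffices PP L ℕ ℕ {v | O (v 0) (v 1)} from this.ren (fun i => if i = 0 then a else b)
  have tr : ∀ {n} (r : L.Relations n) (f g : Fin n → ℕ), (∀ a b, f a = f b ↔ g a = g b) →
      (∀ a, f a < 3 ↔ g a < 3) → Structure.RelMap r f → Structure.RelMap r g := by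
    intro n r f g h h' a
    obtain ⟨σ, h1, h2⟩ := perm f g h h'
    rw [← (funext h2 : σ ∘ f = g)]
    exact (inv (r1 n r) (aut σ h1) f).2 a
  by_contra c
  have : ∀ Φ : Finset {x : Σ n, L.Relations n × (Fin n → ℕ) // Structure.RelMap x.2.1 x.2.2},
      ∃ h : ℕ → ℕ, (∀ x, h x ≤ x + 3) ∧ ¬ O (h 0) (h 1) ∧
        ∀ x ∈ Φ, Structure.RelMap x.1.2.1 (h ∘ x.1.2.2) := by
    intro Φ
    let s : Finset ℕ := {0, 1} ∪ Φ.biUnion fun x => Finset.univ.image x.1.2.2
    have m : ∀ x ∈ Φ, ∀ i, x.1.2.2 i ∈ s := fun x hx i =>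
      Finset.mem_union_right _ (Finset.mem_biUnion.2 ⟨x, hx, by simp⟩)
    have := PP.exs (L := L) (M := ℕ) s (α := ℕ) ((PP.eq (.inl 0) (.inr ⟨0, by simp [s]⟩)).and
      ((PP.eq (.inl 1) (.inr ⟨1, by simp [s]⟩)).and
      (PP.all' fun x : Φ => PP.rel x.1.1.2.1 fun i => .inr ⟨_, m x.1 x.2 i⟩)))
    by_contra d
    refine c (this.congr fun v => ⟨?_, fun a => ?_⟩)
    · rintro ⟨w, a1, a2, a3⟩
      by_contra e
      let h : ℕ → ℕ := fun x => if a : x ∈ s then w ⟨x, a⟩ else 0
      have hh : ∀ x a, h x = w ⟨x, a⟩ := fun x a => dif_pos a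
      let k : ℕ → ℕ := fun x => if h x < 3 then h x else sInf {y | h y = h x} + 3
      have k0 : ∀ x, h (sInf {y | h y = h x}) = h x := fun x =>
        Nat.sInf_mem (s := {y | h y = h x}) ⟨x, rfl⟩
      have k1 : ∀ x, h x < 3 ↔ k x < 3 := fun x => by simp only [k]; split_ifs <;> omega
      have k2 : ∀ x y, h x = h y ↔ k x = k y := fun x y => by
        refine ⟨fun a => by simp only [k, a], fun a => ?_⟩
        simp only [k] at a
        split_ifs at a
        · exact a
        · omega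
        · omega
        · rw [← k0 x, ← k0 y, Nat.add_right_cancel a]
      refine d ⟨k, fun x => ?_, fun a => e ?_, fun x hx => tr _ (h ∘ x.1.2.2) _
        (fun _ _ => k2 _ _) (fun _ => k1 _) ?_⟩
      · have : sInf {y | h y = h x} ≤ x := Nat.sInf_le rfl
        simp only [k]
        split_ifs <;> omega
      · have e0 : v 0 = h 0 := a1.trans (hh 0 _).symm
        have e1 : v 1 = h 1 := a2.trans (hh 1 _).symm
        show O _ _
        rw [e0, e1]
        exact ⟨(k1 _).2 a.1, (k1 _).2 a.2.1, fun b => a.2.2 ((k2 _ _).1 b)⟩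
      · rw [show h ∘ x.1.2.2 = fun i => w ⟨_, m x hx i⟩ from funext fun i => hh _ _]
        exact a3 ⟨x, hx⟩
    · obtain ⟨σ, h1, h2⟩ := perm (fun b => cond b 1 0) (fun b => cond b (v 1) (v 0))
        (fun x y => by cases x <;> cases y <;> simp [a.2.2, a.2.2.symm])
        (fun x => by cases x <;> simp [a.1, a.2.1])
      exact ⟨fun x => σ x, (h2 false).symm, (h2 true).symm,
        fun x => (inv (r1 _ _) (aut σ h1) _).2 x.1.2⟩
  choose h h1 h2 h3 using this
  let 𝒰 := Ultrafilter.of (atTop : Filter (Finset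
    {x : Σ n, L.Relations n × (Fin n → ℕ) // Structure.RelMap x.2.1 x.2.2}))
  have : ∀ x, ∃ y, ∀ᶠ Φ in (𝒰 : Filter (Finset _)), h Φ x = y := fun x => by
    have := (Ultrafilter.eventually_exists_mem_iff (f := 𝒰)
      (P := fun y Φ => h Φ x = y) (Set.finite_Iic (x + 3))).1
      (Eventually.of_forall fun Φ => ⟨_, h1 Φ x, rfl⟩)
    exact this.imp fun _ => And.right
  choose k hk using this
  obtain ⟨g, hg⟩ := mc ⟨k, fun f => isEmptyElim f, fun {n} r t a => by
    have : ∀ᶠ Φ in (𝒰 : Filter (Finset _)), Structure.RelMap r (h Φ ∘ t) := by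
      refine (Ultrafilter.of_le _) ?_
      filter_upwards [eventually_ge_atTop {⟨⟨n, r, t⟩, a⟩}] with Φ b
      exact h3 Φ _ (b (Finset.mem_singleton_self _))
    obtain ⟨Φ, x, y⟩ := (this.and (eventually_all.2 fun i => hk (t i))).exists
    rwa [show h Φ ∘ t = k ∘ t from funext y] at x⟩ {0, 1}
  obtain ⟨Φ, x, y⟩ := ((hk 0).and (hk 1)).exists
  have u : ∀ x < 3, g x < 3 := fun x a => by
    have := (inv (r2 1 ⟨true, rfl⟩) g (fun _ => x)).2 (fun _ => decide_eq_true a)
    exact of_decide_eq_true (this 0)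
  refine h2 Φ ?_
  have e0 : g 0 = k 0 := hg 0 (by simp)
  have e1 : g 1 = k 1 := hg 1 (by simp)
  rw [x, y, ← e0, ← e1]
  exact ⟨u _ (by decide), u _ (by decide), g.injective.ne (by decide)⟩

theorem self (L : FirstOrder.Language.{0, 0}) (M : Type) [L.Structure M] : Reduct L M L :=
  fun _ r => Set.empty_definable_iff.2 ⟨r.formula Term.var, by ext v; simp⟩

theorem mcB : MCCore L0 Bool := fun f _ =>
  ⟨.refl _ _, fun x _ => (f.map_rel (n := 1) ⟨x, rfl⟩ (fun _ => x) (fun _ => rfl) 0).symm⟩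

theorem pp_and {α : Type} {S : Set (α → Bool)} (h : PP L0 Bool α S) :
    ∀ v ∈ S, ∀ w ∈ S, (fun a => v a && w a) ∈ S := by
  induction h with
  | rel r f =>
    intro v hv w hw i
    have a : v (f i) = r.1 := hv i
    have b : w (f i) = r.1 := hw i
    simp [a, b]
  | eq a b =>
    intro v hv w hw
    simp only [Set.mem_ofPred_eq] at *
    rw [hv, hw]
  | top => simp
  | and _ _ i j => exact fun v hv w hw => ⟨i v hv.1 w hw.1, j v hv.2 w hw.2⟩
  | ex _ i =>
    rintro v ⟨x, hv⟩ w ⟨y, hw⟩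
    refine ⟨x && y, ?_⟩
    convert i _ hv _ hw using 2 with o
    cases o <;> rfl

def L2 : FirstOrder.Language.{0, 0} := ⟨fun _ => Empty, fun n => PLift (n = 2)⟩

instance : L2.IsRelational := fun _ => inferInstanceAs (IsEmpty Empty)

instance : L2.Structure Bool where
  funMap f := Empty.elim f
  RelMap _ v := Function.Injective v

theorem fin2 : Finite L2.Symbols := by
  refine Finite.of_injective (fun _ => ()) ?_
  rintro (⟨_, ⟨⟩⟩ | ⟨_, ⟨rfl⟩⟩) (⟨_, ⟨⟩⟩ | ⟨_, ⟨rfl⟩⟩) _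
  rfl

theorem nppc : ¬ PPC L0 Bool L2 Bool := by
  rintro ⟨d, _, -, h, ⟨i⟩, ⟨j⟩⟩
  have a := i.map_rel (n := 2) ⟨rfl⟩ ![true, false] (by show Function.Injective _; decide)
  have b := i.map_rel (n := 2) ⟨rfl⟩ ![false, true] (by show Function.Injective _; decide)
  have := j.map_rel _ _ (pp_and (h 2 ⟨rfl⟩) (fun p => (i ∘ ![true, false]) p.1 p.2) a
    (fun p => (i ∘ ![false, true]) p.1 p.2) b)
  refine absurd (this (a₁ := 0) (a₂ := 1) (congrArg j ?_)) (by decide)
  funext x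
  exact Bool.and_comm _ _

theorem h1 : Nonempty (ℕ →[L0] Bool) :=
  ⟨⟨fun x => decide (x < 3), fun f => Empty.elim f, fun _ _ h => h⟩⟩

theorem h2 : Nonempty (Bool →[L0] ℕ) :=
  ⟨⟨fun x => cond x 0 3, fun f => Empty.elim f, fun r v h i => by
    rw [← h i, Function.comp_apply]
    cases v i <;> rfl⟩⟩

end Pool.Agent.H.MP_6065fc_lc
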